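import Pool.Agent.H76.MB.A10
import Pool.Agent.H64.CX.StmA

set_option autoImplicit false

/-! # From the bounds for single exponents to the bound of the question -/

namespace Pool.Agent.H76.CY

open Complex Metric Set Filter Topology MeasureTheory
open Pool.Agent.W677.Mar Pool.Agent.R250.MC Pool.Agent.W5h49.MB Pool.Agent.H64.CX

/-- the bound for one exponent, for each function of the class separately -/
def Bdw (α : ℂ) (σ : ℝ) : Prop :=
  ∀ Y H : ℂ → ℂ, Sg Y H → ∃ C : ℝ, ∀ r ∈ Ioo (0 : ℝ) 1,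
    (∫ x in (0 : ℝ)..(2 * Real.pi), ‖Complex.exp (-(α * H (circleMap 0 r x)))‖ ^ 2) *
      (1 - r) ^ σ ≤ C

theorem bdw_of_bd {α : ℂ} {σ : ℝ} (h : Bd α σ) : Bdw α σ := by
  intro Y H S
  obtain ⟨C, _, hC⟩ := h
  exact ⟨C, hC Y H S⟩

theorem one_le_aux {R : ℝ} (hR : 1 < R) :
    1 ≤ (1 - R⁻¹) * (2 * Real.exp (Real.log (R ^ 2 / (R ^ 2 - 1)))) := by
  have hR0 : 0 < R := by linarith
  have hR2 : 0 < R ^ 2 - 1 := by nlinarith
  rw [Real.exp_log (by positivity)]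
  have e1 : (1 - R⁻¹) * (2 * (R ^ 2 / (R ^ 2 - 1))) = 2 * R / (R + 1) := by
    have h1 : R ^ 2 - 1 ≠ 0 := hR2.ne'
    have h2 : R + 1 ≠ 0 := by positivity
    field_simp
    ring
  rw [e1, le_div_iff₀ (by positivity)]
  linarith

/-- the bound for one exponent gives the bound of the spectrum -/
theorem ap_of_bdw {t : ℂ} {σ : ℝ} (hσ : 0 ≤ σ) (h : Bdw (-((starRingEnd ℂ) t / 2)) σ) :
    AP t σ := by
  intro ψ g S ε hε
  have hpi := Real.pi_pos
  obtain ⟨C, hC⟩ := h _ _ S.sg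
  filter_upwards [ev_one, ev_C (by linarith : 0 < 2 * ε)
    ((1 / (2 * Real.pi)) * (|C| * 2 ^ σ))] with R hR hR2
  rw [mul_div_cancel_left₀ ε two_ne_zero] at hR2
  have hR0 : 0 < R := by linarith
  have hr : R⁻¹ ∈ Ioo (0 : ℝ) 1 := ⟨by positivity, inv_lt_one_of_one_lt₀ hR⟩
  have hr1 : 0 < 1 - R⁻¹ := by linarith [hr.2]
  have h1 := hC R⁻¹ hr
  have h2 := one_le_aux hR
  obtain ⟨L, hL⟩ : ∃ L, L = Real.log (R ^ 2 / (R ^ 2 - 1)) := ⟨_, rfl⟩
  rw [← hL] at h2 hR2 ⊢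
  have h3 : 1 ≤ (1 - R⁻¹) ^ σ * (2 ^ σ * Real.exp (σ * L)) := by
    have h4 := Real.one_le_rpow h2 hσ
    rw [Real.mul_rpow hr1.le (by positivity), Real.mul_rpow (by norm_num) (Real.exp_pos _).le,
      ← Real.exp_mul, mul_comm L σ] at h4
    exact h4
  have e1 : eM t R g = (1 / (2 * Real.pi)) * ∫ x in (0 : ℝ)..(2 * Real.pi),
      ‖Complex.exp (-(-((starRingEnd ℂ) t / 2) * hat g 0 (circleMap 0 R⁻¹ x)))‖ ^ 2 := by
    rw [eM_eq t hR, Mn]
    congr 1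
    apply intervalIntegral.integral_congr
    intro x _
    show Real.exp ((starRingEnd ℂ) t * hat g 0 (pt R⁻¹ x)).re =
      ‖Complex.exp (-(-((starRingEnd ℂ) t / 2) * hat g 0 (circleMap 0 R⁻¹ x)))‖ ^ 2
    rw [Complex.norm_exp, ← Real.exp_nat_mul]
    congr 1
    have e2 : -(-((starRingEnd ℂ) t / 2) * hat g 0 (circleMap 0 R⁻¹ x)) =
        ((1 / 2 : ℝ) : ℂ) * ((starRingEnd ℂ) t * hat g 0 (pt R⁻¹ x)) := by
      rw [pt]
      push_cast
      ring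
    rw [e2, Complex.re_ofReal_mul]
    push_cast
    ring
  obtain ⟨I, hI⟩ : ∃ I, I = ∫ x in (0 : ℝ)..(2 * Real.pi),
      ‖Complex.exp (-(-((starRingEnd ℂ) t / 2) * hat g 0 (circleMap 0 R⁻¹ x)))‖ ^ 2 := ⟨_, rfl⟩
  have hI0 : 0 ≤ I := by
    rw [hI]
    exact intervalIntegral.integral_nonneg (by positivity) (fun x _ => by positivity)
  rw [← hI] at h1 e1
  have hE := Real.exp_pos (σ * L)
  have h5 : I ≤ |C| * 2 ^ σ * Real.exp (σ * L) := by
    calc I ≤ I * ((1 - R⁻¹) ^ σ * (2 ^ σ * Real.exp (σ * L))) := le_mul_of_one_le_right hI0 h3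
      _ = (I * (1 - R⁻¹) ^ σ) * (2 ^ σ * Real.exp (σ * L)) := by ring
      _ ≤ |C| * (2 ^ σ * Real.exp (σ * L)) := by
          apply mul_le_mul_of_nonneg_right (h1.trans (le_abs_self C)) (by positivity)
      _ = _ := by ring
  rw [e1, add_mul, Real.exp_add]
  calc (1 / (2 * Real.pi)) * I ≤ (1 / (2 * Real.pi)) * (|C| * 2 ^ σ * Real.exp (σ * L)) :=
        mul_le_mul_of_nonneg_left h5 (by positivity)
    _ = (1 / (2 * Real.pi)) * (|C| * 2 ^ σ) * Real.exp (σ * L) := by ring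
    _ ≤ Real.exp (ε * L) * Real.exp (σ * L) := mul_le_mul_of_nonneg_right hR2 hE.le
    _ = _ := by ring

/-- a larger bound of the spectrum -/
theorem AP.mono {t : ℂ} {β β' : ℝ} (h : AP t β) (hb : β ≤ β') : AP t β' := by
  intro ψ g S ε hε
  filter_upwards [h ψ g S ε hε, ev_one] with R h1 hR
  refine h1.trans (Real.exp_le_exp.2 ?_)
  exact mul_le_mul_of_nonneg_right (by linarith) (L_pos hR).le

/-- moving along a ray -/
theorem AP.ray {t : ℂ} {β s : ℝ} (hs : s ≤ 1) (h : AP ((s : ℂ) * t) β) :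
    AP t (β + (1 - s) * ‖t‖) := by
  intro ψ g S ε hε
  filter_upwards [h ψ g S ε hε, ev_one] with R h1 hR
  refine (eM_ray S hR t hs).trans ?_
  refine (mul_le_mul_of_nonneg_left h1 (Real.exp_pos _).le).trans ?_
  rw [← Real.exp_add]
  apply Real.exp_le_exp.2
  apply le_of_eq
  ring

/-- **CY-TOQ1**, for general parameters: bounds for `|α| ≤ b` with the exponents `|α|² / a₁` give the
bound of the question for `a < 2 b - b ^ 2 / a₁`. -/
theorem toQ1_gen {a₀ a₁ b : ℝ} (ha₀ : 0 < a₀) (ha₁ : 0 < a₁) (hb : 0 < b) (hba : b ≤ a₀)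
    (ha01 : a₀ ≤ a₁) (hab : a₀ ≤ 2 * b - b ^ 2 / a₁)
    (hB : ∀ α : ℂ, α ≠ 0 → ‖α‖ ≤ b → Bdw α (‖α‖ ^ 2 / a₁)) :
    ∀ a : ℝ, 0 < a → a < a₀ → ∃ C : ℝ, ∀ R : ℝ, 1 < R → ∀ ψ h : ℂ → ℂ, IsSig ψ h →
      sM a R h ≤ C := by
  refine ((tfae_full (κ := 1) 0 ha₀ one_pos).out 4 0).1 ?_
  -- exponents with `‖t‖ ≤ 2 b`
  have hsmall : ∀ t : ℂ, ‖t‖ ≤ 2 * b → AP t (‖t‖ ^ 2 / (4 * a₁)) := by
    intro t ht
    rcases eq_or_ne t 0 with rfl | ht0
    · intro ψ g S ε hε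
      filter_upwards [ev_one] with R hR
      rw [eM_zero (ψ := ψ)]
      apply Real.one_le_exp
      have := (L_pos hR).le
      positivity
    · have hn : ‖-((starRingEnd ℂ) t / 2)‖ = ‖t‖ / 2 := by
        rw [norm_neg, norm_div, RCLike.norm_conj]
        norm_num
      have h1 := hB (-((starRingEnd ℂ) t / 2)) (by
        rw [ne_eq, ← norm_eq_zero, hn]
        have := norm_pos_iff.2 ht0
        positivity) (by rw [hn]; linarith)
      rw [hn] at h1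
      have h2 := ap_of_bdw (by positivity) h1
      have e1 : (‖t‖ / 2) ^ 2 / a₁ = ‖t‖ ^ 2 / (4 * a₁) := by
        field_simp
        norm_num
      rwa [e1] at h2
  intro t _
  rcases le_or_gt ‖t‖ (2 * b) with h1 | h1
  · exact AP.mono (hsmall t h1) (div_le_div_of_nonneg_left (by positivity) (by positivity)
      (by linarith))
  · have ht0 : 0 < ‖t‖ := by linarith
    obtain ⟨s, hs⟩ : ∃ s : ℝ, s = 2 * b / ‖t‖ := ⟨_, rfl⟩
    have hs0 : 0 < s := by rw [hs]; positivity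
    have hs1 : s ≤ 1 := by
      rw [hs, div_le_one ht0]
      exact h1.le
    have hst : s * ‖t‖ = 2 * b := by
      rw [hs]
      field_simp
    have hnt : ‖(s : ℂ) * t‖ = 2 * b := by
      rw [norm_mul, Complex.norm_real, Real.norm_of_nonneg hs0.le, hst]
    have h2 := hsmall ((s : ℂ) * t) hnt.le
    rw [hnt] at h2
    have h3 := AP.ray hs1 h2
    refine AP.mono h3 ?_
    have e1 : (2 * b) ^ 2 / (4 * a₁) = b ^ 2 / a₁ := by
      field_simp
      norm_num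
    have e2 : (1 - s) * ‖t‖ = ‖t‖ - 2 * b := by rw [← hst]; ring
    rw [e1, e2]
    have h5 : ‖t‖ - a₀ ≤ ‖t‖ ^ 2 / (4 * a₀) := by
      rw [le_div_iff₀ (by positivity)]
      nlinarith [sq_nonneg (‖t‖ - 2 * a₀)]
    linarith

/-- **CY-TOQ1** -/
theorem toQ1 (hB : ∀ α : ℂ, α ≠ 0 → ‖α‖ ≤ 3 / 8 → Bd α (20 / 9 * ‖α‖ ^ 2)) :
    ∀ a : ℝ, 0 < a → a < 7 / 16 → ∃ C : ℝ, ∀ R : ℝ, 1 < R → ∀ ψ h : ℂ → ℂ, IsSig ψ h →
      sM a R h ≤ C := by
  refine toQ1_gen (a₁ := 9 / 20) (b := 3 / 8) (by norm_num) (by norm_num) (by norm_num)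
    (by norm_num) (by norm_num) (by norm_num) (fun α h0 h1 => ?_)
  have h2 := bdw_of_bd (hB α h0 h1)
  have e1 : ‖α‖ ^ 2 / (9 / 20) = 20 / 9 * ‖α‖ ^ 2 := by ring
  rwa [e1]

end Pool.Agent.H76.CY
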