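import Pool.Agent.H64.G.R_seed8.Helper240.ZFM.AreaA

set_option autoImplicit false

/-! # From integral means to coefficients -/

namespace Pool.Agent.H76.CY

open Complex Metric Set Filter Topology MeasureTheory

/-- Cauchy's estimate for the coefficients with the mean of the modulus -/
theorem coef_le {g : ℂ → ℂ} {c : ℕ → ℂ} (hg : DifferentiableOn ℂ g (ball 0 1))
    (hc : ∀ z ∈ ball (0 : ℂ) 1, HasSum (fun j => c j * z ^ j) (g z)) {r : ℝ}
    (hr : r ∈ Ioo (0 : ℝ) 1) (n : ℕ) :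
    ‖c n‖ * r ^ n ≤ (2 * Real.pi)⁻¹ * ∫ θ in (0 : ℝ)..(2 * Real.pi), ‖g (circleMap 0 r θ)‖ := by
  obtain ⟨R, hR⟩ : ∃ R : NNReal, (R : ℝ) = r := ⟨⟨r, hr.1.le⟩, rfl⟩
  have hR0 : 0 < R := by
    rw [← NNReal.coe_pos, hR]
    exact hr.1
  have hd : DifferentiableOn ℂ g (closedBall 0 R) := by
    rw [hR]
    exact hg.mono (closedBall_subset_ball hr.2)
  have hp : HasFPowerSeriesOnBall g (cauchyPowerSeries g 0 R) 0 R :=
    DifferentiableOn.hasFPowerSeriesOnBall hd hR0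
  have hq : HasFPowerSeriesAt g (FormalMultilinearSeries.ofScalars ℂ c) 0 := by
    rw [hasFPowerSeriesAt_iff]
    filter_upwards [isOpen_ball.mem_nhds (mem_ball_self one_pos)] with z hz
    have h1 := hc z hz
    simpa [FormalMultilinearSeries.coeff_ofScalars, mul_comm] using h1
  have he := hp.hasFPowerSeriesAt.eq_formalMultilinearSeries hq
  have h1 := norm_cauchyPowerSeries_le g 0 R n
  rw [he] at h1
  have h2 : ‖FormalMultilinearSeries.ofScalars ℂ c n‖ = ‖c n‖ := by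
    rw [FormalMultilinearSeries.norm_apply_eq_norm_coef, FormalMultilinearSeries.coeff_ofScalars]
  rw [h2, hR, abs_of_pos hr.1] at h1
  have h3 : 0 < r ^ n := pow_pos hr.1 n
  calc ‖c n‖ * r ^ n ≤ ((2 * Real.pi)⁻¹ * ∫ θ in (0 : ℝ)..(2 * Real.pi), ‖g (circleMap 0 r θ)‖) *
        r⁻¹ ^ n * r ^ n := mul_le_mul_of_nonneg_right h1 h3.le
    _ = _ := by
        rw [mul_assoc, ← mul_pow, inv_mul_cancel₀ hr.1.ne', one_pow, mul_one]

/-- the radius `n / (n + 1)` -/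
theorem rad_pow (n : ℕ) (hn : 1 ≤ n) : 1 / 6 ≤ (1 - 1 / ((n : ℝ) + 1)) ^ (n + 1) := by
  have hn' : (1 : ℝ) ≤ n := by exact_mod_cast hn
  have h1 : (1 - 1 / ((n : ℝ) + 1)) = (1 + 1 / (n : ℝ))⁻¹ := by
    field_simp
    ring
  rw [h1, inv_pow, one_div, inv_le_inv₀ (by norm_num) (by positivity)]
  have h2 : 1 + 1 / (n : ℝ) ≤ Real.exp (1 / n) := by
    have := Real.add_one_le_exp (1 / (n : ℝ))
    linarith
  have h3 : (1 + 1 / (n : ℝ)) ^ n ≤ Real.exp 1 := by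
    calc (1 + 1 / (n : ℝ)) ^ n ≤ Real.exp (1 / n) ^ n := pow_le_pow_left₀ (by positivity) h2 n
      _ = Real.exp 1 := by
          rw [← Real.exp_nat_mul]
          congr 1
          field_simp
  have h4 : 1 + 1 / (n : ℝ) ≤ 2 := by
    have : 1 / (n : ℝ) ≤ 1 := by
      rw [div_le_one (by linarith)]
      exact hn'
    linarith
  rw [pow_succ]
  have h5 := Real.exp_one_lt_d9
  calc (1 + 1 / (n : ℝ)) ^ n * (1 + 1 / (n : ℝ)) ≤ Real.exp 1 * 2 :=
        mul_le_mul h3 h4 (by positivity) (Real.exp_pos _).le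
    _ ≤ 6 := by linarith

/-- from the growth of the means to the coefficients -/
theorem coef_growth {x B σ : ℝ} {n : ℕ} (hn : 1 ≤ n) (hx : 0 ≤ x) (hB : 0 ≤ B) (hσ0 : 0 ≤ σ)
    (hσ1 : σ ≤ 1)
    (h : ∀ r ∈ Ioo (0 : ℝ) 1, n * x * r ^ (n + 1) ≤ (2 * Real.pi)⁻¹ * (B * (1 - r) ^ (-σ))) :
    x ≤ 2 * B * (n : ℝ) ^ (σ - 1) := by
  have hn' : (1 : ℝ) ≤ n := by exact_mod_cast hn
  have hn0 : (0 : ℝ) < n := by linarith
  have h1 := h (1 - 1 / ((n : ℝ) + 1)) ⟨by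
      have : 1 / ((n : ℝ) + 1) < 1 := by
        rw [div_lt_one (by positivity)]
        linarith
      linarith, by
      have : 0 < 1 / ((n : ℝ) + 1) := by positivity
      linarith⟩
  have h2 := rad_pow n hn
  have e1 : (1 - (1 - 1 / ((n : ℝ) + 1))) ^ (-σ) = ((n : ℝ) + 1) ^ σ := by
    rw [show 1 - (1 - 1 / ((n : ℝ) + 1)) = ((n : ℝ) + 1)⁻¹ by ring,
      Real.inv_rpow (by positivity), ← Real.rpow_neg (by positivity), neg_neg]
  rw [e1] at h1
  have h3 : ((n : ℝ) + 1) ^ σ ≤ 2 * (n : ℝ) ^ σ := by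
    calc ((n : ℝ) + 1) ^ σ ≤ (2 * (n : ℝ)) ^ σ :=
          Real.rpow_le_rpow (by positivity) (by linarith) hσ0
      _ = 2 ^ σ * (n : ℝ) ^ σ := Real.mul_rpow (by norm_num) hn0.le
      _ ≤ 2 * (n : ℝ) ^ σ := by
          apply mul_le_mul_of_nonneg_right _ (by positivity)
          calc (2 : ℝ) ^ σ ≤ 2 ^ (1 : ℝ) :=
                Real.rpow_le_rpow_of_exponent_le (by norm_num) hσ1
            _ = 2 := Real.rpow_one 2
  have hpi := Real.pi_gt_three
  have h4 : (2 * Real.pi)⁻¹ ≤ 1 / 6 := by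
    rw [one_div, inv_le_inv₀ (by positivity) (by norm_num)]
    linarith
  have hS : 0 ≤ (n : ℝ) ^ σ := by positivity
  have h5 : n * x * (1 / 6) ≤ 1 / 6 * (B * (2 * (n : ℝ) ^ σ)) := by
    calc n * x * (1 / 6) ≤ n * x * (1 - 1 / ((n : ℝ) + 1)) ^ (n + 1) :=
          mul_le_mul_of_nonneg_left h2 (by positivity)
      _ ≤ (2 * Real.pi)⁻¹ * (B * ((n : ℝ) + 1) ^ σ) := h1
      _ ≤ 1 / 6 * (B * ((n : ℝ) + 1) ^ σ) := mul_le_mul_of_nonneg_right h4 (by positivity)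
      _ ≤ 1 / 6 * (B * (2 * (n : ℝ) ^ σ)) := by
          apply mul_le_mul_of_nonneg_left _ (by norm_num)
          exact mul_le_mul_of_nonneg_left h3 hB
  rw [Real.rpow_sub_one hn0.ne', mul_div_assoc', le_div_iff₀ hn0]
  linarith

end Pool.Agent.H76.CY
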