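import Pool.Agent.H76.CY.Half

set_option autoImplicit false

/-! # The first moment and the coefficients of bounded univalent functions in the disc -/

namespace Pool.Agent.H76.CY

open Complex Metric Set Filter Topology MeasureTheory
open Pool.Agent.W677.Mar

/-- the pointwise comparison for bounded functions -/
theorem deriv_le_bdd {f : ℂ → ℂ} {M : ℝ} (hf : DifferentiableOn ℂ f (ball 0 1))
    (hi : InjOn f (ball 0 1)) (h0 : f 0 = 0) (h1 : deriv f 0 = 1)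
    (hM : ∀ z ∈ ball (0 : ℂ) 1, ‖f z‖ ≤ M) :
    ∃ Y H : ℂ → ℂ, Sg Y H ∧ ∀ w ∈ ball (0 : ℂ) 1, w ≠ 0 →
      ‖deriv f w‖ ≤ M ^ 2 * ‖Complex.exp (H w)‖ := by
  obtain ⟨hne, Y, H, S, hS⟩ := Pool.Agent.H64.BR.uni f hf hi h0 h1
  have hM0 : 0 < M := by
    by_contra hcon
    have hz : ∀ z ∈ ball (0 : ℂ) 1, f z = 0 := fun z hz =>
      norm_le_zero_iff.1 ((hM z hz).trans (not_lt.1 hcon))
    have h2 : f =ᶠ[𝓝 0] fun _ => (0 : ℂ) := by
      filter_upwards [isOpen_ball.mem_nhds (mem_ball_self (one_pos : (0 : ℝ) < 1))] with z hz'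
      exact hz z hz'
    have h3 := h2.deriv_eq
    rw [h1, deriv_const] at h3
    exact one_ne_zero h3
  refine ⟨Y, H, S, fun w hw hw0 => ?_⟩
  have hmaps : MapsTo f (ball 0 1) (closedBall (f 0) M) := by
    intro z hz
    rw [h0, mem_closedBall_zero_iff]
    exact hM z hz
  have h2 := Complex.dist_le_div_mul_dist_of_mapsTo_ball hf hmaps hw
  rw [h0, dist_zero_right, dist_zero_right, div_one] at h2
  have e := hS w hw
  have hw' : 0 < ‖w‖ := norm_pos_iff.2 hw0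
  have hd : 0 < ‖deriv f w‖ := norm_pos_iff.2 (hne w hw)
  have hE : 0 < ‖Complex.exp (H w)‖ := norm_pos_iff.2 (Complex.exp_ne_zero _)
  have e2 : ‖Complex.exp (-H w)‖ = ‖Complex.exp (H w)‖⁻¹ := by rw [Complex.exp_neg, norm_inv]
  rw [e2] at e
  have e3 : ‖deriv f w‖ * ‖w‖ ^ 2 = ‖Complex.exp (H w)‖ * ‖f w‖ ^ 2 := by
    have h3 := congrArg (fun t : ℝ => t * (‖deriv f w‖ * ‖Complex.exp (H w)‖)) e
    have a1 : ‖deriv f w‖⁻¹ * ‖f w‖ ^ 2 * (‖deriv f w‖ * ‖Complex.exp (H w)‖) =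
        ‖Complex.exp (H w)‖ * ‖f w‖ ^ 2 := by
      field_simp
    have a2 : ‖Complex.exp (H w)‖⁻¹ * ‖w‖ ^ 2 * (‖deriv f w‖ * ‖Complex.exp (H w)‖) =
        ‖deriv f w‖ * ‖w‖ ^ 2 := by
      field_simp
    rw [a1, a2] at h3
    exact h3.symm
  have h4 : ‖f w‖ ^ 2 ≤ (M * ‖w‖) ^ 2 := pow_le_pow_left₀ (norm_nonneg _) h2 2
  have h5 : ‖deriv f w‖ * ‖w‖ ^ 2 ≤ M ^ 2 * ‖Complex.exp (H w)‖ * ‖w‖ ^ 2 := by
    rw [e3]
    calc ‖Complex.exp (H w)‖ * ‖f w‖ ^ 2 ≤ ‖Complex.exp (H w)‖ * (M * ‖w‖) ^ 2 :=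
          mul_le_mul_of_nonneg_left h4 hE.le
      _ = _ := by ring
  exact le_of_mul_le_mul_right h5 (by positivity)

theorem circ_mem' {r : ℝ} (hr : r ∈ Ioo (0 : ℝ) 1) (t : ℝ) : circleMap 0 r t ∈ ball (0 : ℂ) 1 := by
  rw [mem_ball_zero_iff, norm_circleMap_zero, abs_of_pos hr.1]
  exact hr.2

theorem circ_ne' {r : ℝ} (hr : r ∈ Ioo (0 : ℝ) 1) (t : ℝ) : circleMap 0 r t ≠ 0 := by
  rw [← norm_pos_iff, norm_circleMap_zero, abs_of_pos hr.1]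
  exact hr.1

/-- the mean -/
theorem disc_mean {C : ℝ} (hC : ∀ Y H : ℂ → ℂ, Sg Y H → ∀ r ∈ Ioo (0 : ℝ) 1,
    ∫ x in (0 : ℝ)..(2 * Real.pi), ‖Complex.exp (H (circleMap 0 r x))‖ ≤
      C * (1 - r) ^ (-(41 / 100) : ℝ)) {f : ℂ → ℂ} {M : ℝ} (hf : DifferentiableOn ℂ f (ball 0 1))
    (hi : InjOn f (ball 0 1)) (h0 : f 0 = 0) (h1 : deriv f 0 = 1)
    (hM : ∀ z ∈ ball (0 : ℂ) 1, ‖f z‖ ≤ M) {r : ℝ} (hr : r ∈ Ioo (0 : ℝ) 1) :
    ∫ x in (0 : ℝ)..(2 * Real.pi), ‖deriv f (circleMap 0 r x)‖ ≤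
      M ^ 2 * C * (1 - r) ^ (-(41 / 100) : ℝ) := by
  obtain ⟨Y, H, S, hle⟩ := deriv_le_bdd hf hi h0 h1 hM
  have hdc : ContinuousOn (deriv f) (ball 0 1) := (hf.deriv isOpen_ball).continuousOn
  have c1 : Continuous fun t : ℝ => ‖deriv f (circleMap 0 r t)‖ :=
    (hdc.comp_continuous (continuous_circleMap 0 r) fun t => circ_mem' hr t).norm
  have c2 : Continuous fun t : ℝ => M ^ 2 * ‖Complex.exp (H (circleMap 0 r t))‖ :=
    continuous_const.mul (Complex.continuous_exp.comp (S.dH.continuousOn.comp_continuous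
      (continuous_circleMap 0 r) fun t => circ_mem' hr t)).norm
  have h2 : ∫ x in (0 : ℝ)..(2 * Real.pi), ‖deriv f (circleMap 0 r x)‖ ≤
      ∫ x in (0 : ℝ)..(2 * Real.pi), M ^ 2 * ‖Complex.exp (H (circleMap 0 r x))‖ :=
    intervalIntegral.integral_mono_on (μ := volume) (by positivity) (c1.intervalIntegrable _ _)
      (c2.intervalIntegrable _ _) fun t _ => hle _ (circ_mem' hr t) (circ_ne' hr t)
  rw [intervalIntegral.integral_const_mul] at h2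
  refine h2.trans ?_
  have h3 := mul_le_mul_of_nonneg_left (hC Y H S r hr) (sq_nonneg M)
  rw [← mul_assoc] at h3
  exact h3

/-- the coefficients -/
theorem disc_coef {C : ℝ} (hC0 : 0 ≤ C) (hC : ∀ Y H : ℂ → ℂ, Sg Y H → ∀ r ∈ Ioo (0 : ℝ) 1,
    ∫ x in (0 : ℝ)..(2 * Real.pi), ‖Complex.exp (H (circleMap 0 r x))‖ ≤
      C * (1 - r) ^ (-(41 / 100) : ℝ)) {f : ℂ → ℂ} {M : ℝ} (hf : DifferentiableOn ℂ f (ball 0 1))
    (hi : InjOn f (ball 0 1)) (h0 : f 0 = 0) (h1 : deriv f 0 = 1)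
    (hM : ∀ z ∈ ball (0 : ℂ) 1, ‖f z‖ ≤ M) {a : ℕ → ℂ}
    (ha : ∀ z ∈ ball (0 : ℂ) 1, HasSum (fun n : ℕ => a n * z ^ n) (f z)) {n : ℕ} (hn : 1 ≤ n) :
    ‖a n‖ ≤ 2 * M ^ 2 * C * (n : ℝ) ^ (-(59 / 100) : ℝ) := by
  obtain ⟨g, hg⟩ : ∃ g : ℂ → ℂ, g = fun w => w * deriv f w - ((0 : ℕ) : ℂ) * f w := ⟨_, rfl⟩
  have hgd : DifferentiableOn ℂ g (ball 0 1) := by
    rw [hg]
    exact (differentiableOn_id.mul (hf.deriv isOpen_ball)).sub (hf.const_mul _)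
  have hgs : ∀ w ∈ ball (0 : ℂ) 1, HasSum (fun j : ℕ => (((j : ℂ) - ((0 : ℕ) : ℂ)) * a j) * w ^ j)
      (g w) := by
    intro w hw
    rw [hg]
    exact Pool.Agent.Helper405.Area.hasSum_Q ha 0 w hw
  have hge : ∀ w ∈ ball (0 : ℂ) 1, ‖g w‖ ≤ ‖deriv f w‖ := by
    intro w hw
    rw [hg]
    simp only [Nat.cast_zero, zero_mul, sub_zero, norm_mul]
    have h2 : ‖w‖ ≤ 1 := (mem_ball_zero_iff.1 hw).le
    exact mul_le_of_le_one_left (norm_nonneg _) h2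
  have key : ∀ r ∈ Ioo (0 : ℝ) 1, (n : ℝ) * ‖a n‖ * r ^ (n + 1) ≤
      (2 * Real.pi)⁻¹ * (M ^ 2 * C * (1 - r) ^ (-(41 / 100) : ℝ)) := by
    intro r hr
    have h2 := coef_le hgd hgs hr n
    have e1 : ‖((n : ℂ) - ((0 : ℕ) : ℂ)) * a n‖ = n * ‖a n‖ := by
      rw [Nat.cast_zero, sub_zero, norm_mul, Complex.norm_natCast]
    rw [e1] at h2
    have h3 : (n : ℝ) * ‖a n‖ * r ^ (n + 1) ≤ (n : ℝ) * ‖a n‖ * r ^ n := by
      apply mul_le_mul_of_nonneg_left _ (by positivity)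
      exact pow_le_pow_of_le_one hr.1.le hr.2.le (Nat.le_succ n)
    refine h3.trans (h2.trans ?_)
    apply mul_le_mul_of_nonneg_left _ (by positivity)
    refine le_trans ?_ (disc_mean hC hf hi h0 h1 hM hr)
    have c1 : Continuous fun t : ℝ => ‖g (circleMap 0 r t)‖ :=
      (hgd.continuousOn.comp_continuous (continuous_circleMap 0 r) fun t => circ_mem' hr t).norm
    have hdc : ContinuousOn (deriv f) (ball 0 1) := (hf.deriv isOpen_ball).continuousOn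
    have c2 : Continuous fun t : ℝ => ‖deriv f (circleMap 0 r t)‖ :=
      (hdc.comp_continuous (continuous_circleMap 0 r) fun t => circ_mem' hr t).norm
    exact intervalIntegral.integral_mono_on (μ := volume) (by positivity)
      (c1.intervalIntegrable _ _) (c2.intervalIntegrable _ _) fun t _ => hge _ (circ_mem' hr t)
  have h2 := coef_growth (x := ‖a n‖) hn (norm_nonneg _) (by positivity) (by norm_num)
    (by norm_num) key
  have e3 : (41 / 100 : ℝ) - 1 = -(59 / 100) := by norm_num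
  rw [e3] at h2
  refine h2.trans (le_of_eq ?_)
  ring

end Pool.Agent.H76.CY
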