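import Pool.Agent.H64.CX.LA
import Pool.Agent.H64.CX.LCD

set_option autoImplicit false

/-! # The density at `α = -1/2`: the integral over `x` -/

namespace Pool.Agent.H76.CY

open Set Filter Topology MeasureTheory
open scoped ENNReal

/-- the algebraic inequality -/
theorem alg_ineq {q r : ℝ} (hq : 0 ≤ q) (hr : 0 ≤ r) (hqr : q ^ 2 = 1 + r ^ 2) :
    9 * (1 + 6 * (r * q) ^ 2) * (q ^ 2 + r ^ 2) ≤
      (9 + 48 * (r * q) ^ 2) * (q ^ 3 - r ^ 3) ^ 2 := by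
  obtain ⟨p, hp⟩ : ∃ p, p = r * q := ⟨_, rfl⟩
  obtain ⟨S, hS⟩ : ∃ S, S = q ^ 2 + r ^ 2 := ⟨_, rfl⟩
  have hp0 : 0 ≤ p := by rw [hp]; positivity
  have hS0 : 0 ≤ S := by rw [hS]; positivity
  have hS2 : S ^ 2 = 1 + 4 * p ^ 2 := by
    rw [hS, hp]
    have : q ^ 2 - r ^ 2 = 1 := by linarith
    linear_combination (q ^ 2 - r ^ 2 + 1) * this
  have hD : (q ^ 3 - r ^ 3) ^ 2 = S * (1 + p ^ 2) - 2 * p ^ 3 := by
    rw [hS, hp]
    have : q ^ 2 - r ^ 2 = 1 := by linarith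
    linear_combination (q ^ 2 + r ^ 2) * (q ^ 2 - r ^ 2 + 1) * this
  have h1 : 2 * p * (3 + 16 * p ^ 2) ≤ S * (1 + 16 * p ^ 2) := by
    have h2 : (2 * p * (3 + 16 * p ^ 2)) ^ 2 ≤ (S * (1 + 16 * p ^ 2)) ^ 2 := by
      rw [mul_pow S, hS2]
      nlinarith
    exact le_of_sq_le_sq h2 (by positivity)
  rw [← hp, ← hS, hD]
  have h3 := mul_le_mul_of_nonneg_left h1 (by positivity : 0 ≤ 3 * p ^ 2)
  nlinarith

/-- the integrand over `x` -/
noncomputable def f0 (σ τ x : ℝ) : ℝ :=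
  x * (1 + x) ^ (1 - σ) / ((1 + x) ^ (3 / 2 : ℝ) - x ^ (3 / 2 : ℝ)) ^ 2 *
    ((1 + 2 * x) / (x * (1 + x) + τ)) ^ 2

theorem rpow_three_half {x : ℝ} (hx : 0 ≤ x) : x ^ (3 / 2 : ℝ) = Real.sqrt x ^ 3 := by
  rw [Real.sqrt_eq_rpow, ← Real.rpow_natCast, ← Real.rpow_mul hx]
  norm_num

/-- the factor -/
theorem fac_le {x : ℝ} (hx : 0 ≤ x) :
    (1 + 2 * x) / ((1 + x) ^ (3 / 2 : ℝ) - x ^ (3 / 2 : ℝ)) ^ 2 ≤
      8 / 9 + 1 / 9 * (1 / (1 + 6 * (x * (1 + x)))) := by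
  have hu : 0 ≤ 1 + x := by linarith
  rw [rpow_three_half hu, rpow_three_half hx]
  obtain ⟨q, hq⟩ : ∃ q, q = Real.sqrt (1 + x) := ⟨_, rfl⟩
  obtain ⟨r, hr⟩ : ∃ r, r = Real.sqrt x := ⟨_, rfl⟩
  have hq0 : 0 ≤ q := by rw [hq]; exact Real.sqrt_nonneg _
  have hr0 : 0 ≤ r := by rw [hr]; exact Real.sqrt_nonneg _
  have hq2 : q ^ 2 = 1 + x := by rw [hq]; exact Real.sq_sqrt hu
  have hr2 : r ^ 2 = x := by rw [hr]; exact Real.sq_sqrt hx
  rw [← hq, ← hr]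
  have h1 := alg_ineq hq0 hr0 (by rw [hq2, hr2])
  have hrq : r < q := by
    by_contra h
    have h2 := pow_le_pow_left₀ hq0 (not_lt.1 h) 2
    rw [hq2, hr2] at h2
    linarith
  have h3 : 0 < q ^ 3 - r ^ 3 := by
    have := pow_lt_pow_left₀ hrq hr0 (n := 3) (by norm_num)
    linarith
  rw [mul_pow, hq2, hr2] at h1
  have hv : 0 ≤ x * (1 + x) := by positivity
  have h4 : 8 / 9 + 1 / 9 * (1 / (1 + 6 * (x * (1 + x)))) =
      (9 + 48 * (x * (1 + x))) / (9 * (1 + 6 * (x * (1 + x)))) := by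
    field_simp
    ring
  rw [h4, div_le_div_iff₀ (by positivity) (by positivity)]
  nlinarith

/-- the logarithm -/
theorem log_one_sub_le {y : ℝ} (h0 : 0 ≤ y) (h1 : y < 1) :
    Real.log (1 - y) ≤ -(y + y ^ 2 / 2 + y ^ 3 / 3 + y ^ 4 / 4) := by
  have h2 := Real.hasSum_pow_div_log_of_abs_lt_one (x := y) (by rw [abs_of_nonneg h0]; exact h1)
  have h3 := sum_le_hasSum (Finset.range 4) (fun i _ => by positivity) h2
  norm_num [Finset.sum_range_succ] at h3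
  linarith

/-- the logarithmic inequality -/
theorem log_ineq' {x τ : ℝ} (hx : 0 ≤ x) (h0 : 0 < τ) (h1 : τ ≤ 1 / 4) :
    Real.log (x * (1 + x) + τ) - 2 * Real.log (1 + x) + τ / (x * (1 + x) + τ) ≤
      -(1 / (1 + x)) + 1 / 6 * (1 / (1 + x)) ^ 3 + 5 / 32 * (1 / (1 + x)) ^ 4 +
        5 / 16 * (1 / (1 + x)) ^ 5 := by
  have hu : 0 < 1 + x := by linarith
  have hv : 0 ≤ x * (1 + x) := by positivity
  have hw : 0 < x * (1 + x) + τ := by positivity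
  have hh : 0 < x + 1 / 2 := by linarith
  -- monotonicity in `τ`
  have e1 : x * (1 + x) + 1 / 4 = (x + 1 / 2) ^ 2 := by ring
  have m1 : Real.log (x * (1 + x) + τ) + τ / (x * (1 + x) + τ) ≤
      Real.log ((x + 1 / 2) ^ 2) + 1 / 4 / (x + 1 / 2) ^ 2 := by
    have h2 : Real.log ((x * (1 + x) + τ) / (x + 1 / 2) ^ 2) ≤
        (x * (1 + x) + τ) / (x + 1 / 2) ^ 2 - 1 := Real.log_le_sub_one_of_pos (by positivity)
    rw [Real.log_div hw.ne' (by positivity)] at h2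
    have h3 : τ / (x * (1 + x) + τ) = 1 - x * (1 + x) / (x * (1 + x) + τ) := by
      field_simp
      ring
    have h4 : 1 / 4 / (x + 1 / 2) ^ 2 = 1 - x * (1 + x) / (x + 1 / 2) ^ 2 := by
      rw [← e1]
      field_simp
      ring
    have h5 : (x * (1 + x) + τ) / (x + 1 / 2) ^ 2 - 1 ≤
        x * (1 + x) / (x * (1 + x) + τ) - x * (1 + x) / (x + 1 / 2) ^ 2 := by
      rw [← e1]
      have h6 : x * (1 + x) / (x * (1 + x) + τ) - x * (1 + x) / (x * (1 + x) + 1 / 4) -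
          ((x * (1 + x) + τ) / (x * (1 + x) + 1 / 4) - 1) =
          (1 / 4 - τ) * (2 * (x * (1 + x)) + τ) /
            ((x * (1 + x) + τ) * (x * (1 + x) + 1 / 4)) := by
        field_simp
        ring
      have h7 : 0 ≤ (1 / 4 - τ) * (2 * (x * (1 + x)) + τ) /
            ((x * (1 + x) + τ) * (x * (1 + x) + 1 / 4)) := by
        have : 0 ≤ 1 / 4 - τ := by linarith
        positivity
      linarith
    rw [h3, h4]
    linarith
  -- the logarithm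
  obtain ⟨y, hy⟩ : ∃ y, y = 1 / (2 * (1 + x)) := ⟨_, rfl⟩
  have hy0 : 0 < y := by rw [hy]; positivity
  have hy1 : y ≤ 1 / 2 := by
    rw [hy, div_le_div_iff₀ (by positivity) (by norm_num)]
    linarith
  have hu1 : 1 / (1 + x) = 2 * y := by rw [hy]; field_simp
  have e2 : Real.log ((x + 1 / 2) ^ 2) - 2 * Real.log (1 + x) = 2 * Real.log (1 - y) := by
    have h2 : x + 1 / 2 = (1 + x) * (1 - y) := by rw [hy]; field_simp; ring
    rw [Real.log_pow, h2, Real.log_mul hu.ne' (by linarith)]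
    push_cast
    ring
  have h3 := log_one_sub_le hy0.le (by linarith)
  have e3 : 1 / 4 / (x + 1 / 2) ^ 2 = y ^ 2 / (1 - y) ^ 2 := by
    have h2 : x + 1 / 2 = (1 + x) * (1 - y) := by rw [hy]; field_simp; ring
    have h4 : 0 < 1 - y := by linarith
    rw [h2, div_eq_div_iff (by positivity) (by positivity), hy]
    field_simp
    norm_num
  have h4 : y ^ 2 / (1 - y) ^ 2 ≤ y ^ 2 + 2 * y ^ 3 + 3 * y ^ 4 + 10 * y ^ 5 := by
    rw [div_le_iff₀ (by nlinarith)]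
    have h5 : (y ^ 2 + 2 * y ^ 3 + 3 * y ^ 4 + 10 * y ^ 5) * (1 - y) ^ 2 =
        y ^ 2 + y ^ 5 * ((1 - 2 * y) * (6 - 5 * y)) := by ring
    rw [h5]
    have : 0 ≤ (1 - 2 * y) * (6 - 5 * y) := mul_nonneg (by linarith) (by linarith)
    have : 0 ≤ y ^ 5 * ((1 - 2 * y) * (6 - 5 * y)) := by positivity
    linarith
  rw [hu1]
  rw [e3] at m1
  have e4 : -(2 * y) + 1 / 6 * (2 * y) ^ 3 + 5 / 32 * (2 * y) ^ 4 + 5 / 16 * (2 * y) ^ 5 =
      -(2 * y) + 4 / 3 * y ^ 3 + 5 / 2 * y ^ 4 + 10 * y ^ 5 := by ring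
  rw [e4]
  linarith

end Pool.Agent.H76.CY
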