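import Pool.Agent.H76.CY.HalfIn

set_option autoImplicit false

/-! # The density at `α = -1/2`: the integral over `x` -/

namespace Pool.Agent.H76.CY

open Set Filter Topology MeasureTheory
open scoped ENNReal

/-- the constant -/
noncomputable def RR (σ : ℝ) : ℝ :=
  σ * (-(1 / (1 + σ)) + 1 / (6 * (3 + σ)) + 5 / (32 * (4 + σ)) + 5 / (16 * (5 + σ)))

/-- first antiderivative -/
noncomputable def P1 (σ τ x : ℝ) : ℝ :=
  (1 + x) ^ (-σ) * (Real.log (x * (1 + x) + τ) - 2 * Real.log (1 + x) + τ / (x * (1 + x) + τ)) -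
    2 / σ * (1 + x) ^ (-σ) + σ / (1 + σ) * (1 + x) ^ (-σ - 1) -
    σ / (6 * (3 + σ)) * (1 + x) ^ (-σ - 3) - 5 * σ / (32 * (4 + σ)) * (1 + x) ^ (-σ - 4) -
    5 * σ / (16 * (5 + σ)) * (1 + x) ^ (-σ - 5)

/-- second antiderivative -/
noncomputable def P2 (τ x : ℝ) : ℝ :=
  Real.log (x * (1 + x) + τ) - Real.log (x * (1 + x) + τ + 1 / 6)

/-- derivative of the first -/
noncomputable def Q1 (σ τ x : ℝ) : ℝ :=
  (1 + x) ^ (-σ) * ((1 + 2 * x) * (x * (1 + x)) / (x * (1 + x) + τ) ^ 2) +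
    σ * (1 + x) ^ (-σ - 1) * (-(Real.log (x * (1 + x) + τ) - 2 * Real.log (1 + x) +
      τ / (x * (1 + x) + τ)) + (-(1 / (1 + x)) + 1 / 6 * (1 / (1 + x)) ^ 3 +
      5 / 32 * (1 / (1 + x)) ^ 4 + 5 / 16 * (1 / (1 + x)) ^ 5))

/-- derivative of the second -/
noncomputable def Q2 (τ x : ℝ) : ℝ :=
  (1 + 2 * x) / (x * (1 + x) + τ) - (1 + 2 * x) / (x * (1 + x) + τ + 1 / 6)

theorem pw_deriv (p x : ℝ) (hx : 0 ≤ x) :
    HasDerivAt (fun x : ℝ => (1 + x) ^ p) (p * (1 + x) ^ (p - 1)) x := by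
  have h3 : 0 < 1 + x := by linarith
  have h := ((hasDerivAt_id x).const_add 1).rpow_const (p := p) (Or.inl h3.ne')
  refine h.congr_deriv ?_
  simp only [id]
  ring

theorem w_deriv (τ x : ℝ) : HasDerivAt (fun x : ℝ => x * (1 + x) + τ) (1 + 2 * x) x := by
  have h := ((hasDerivAt_id x).mul ((hasDerivAt_id x).const_add 1)).add_const τ
  refine h.congr_deriv ?_
  simp only [id]
  ring

theorem P1_deriv {σ τ x : ℝ} (hσ : 0 < σ) (hτ : 0 < τ) (hx : 0 ≤ x) :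
    HasDerivAt (P1 σ τ) (Q1 σ τ x) x := by
  have hu : 0 < 1 + x := by linarith
  have hw : 0 < x * (1 + x) + τ := by positivity
  have d1 := pw_deriv (-σ) x hx
  have d2 := (w_deriv τ x).log hw.ne'
  have d3 : HasDerivAt (fun x : ℝ => 2 * Real.log (1 + x)) (2 * (1 / (1 + x))) x :=
    (((hasDerivAt_id x).const_add 1).log hu.ne').const_mul 2
  have d4 : HasDerivAt (fun x : ℝ => τ / (x * (1 + x) + τ))
      (-(τ * (1 + 2 * x)) / (x * (1 + x) + τ) ^ 2) x := by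
    have h := (hasDerivAt_const x τ).div (w_deriv τ x) hw.ne'
    refine h.congr_deriv ?_
    ring
  have d5 := pw_deriv (-σ - 1) x hx
  have d6 := pw_deriv (-σ - 3) x hx
  have d7 := pw_deriv (-σ - 4) x hx
  have d8 := pw_deriv (-σ - 5) x hx
  have h := (((((d1.mul ((d2.sub d3).add d4)).sub (d1.const_mul (2 / σ))).add
    (d5.const_mul (σ / (1 + σ)))).sub (d6.const_mul (σ / (6 * (3 + σ))))).sub
    (d7.const_mul (5 * σ / (32 * (4 + σ))))).sub (d8.const_mul (5 * σ / (16 * (5 + σ))))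
  refine h.congr_deriv ?_
  have p1 : (1 + x) ^ (-σ - 1) = (1 + x) ^ (-σ) * (1 / (1 + x)) := by
    rw [Real.rpow_sub_one hu.ne']; ring
  have p2 : (1 + x) ^ (-σ - 1 - 1) = (1 + x) ^ (-σ) * (1 / (1 + x)) ^ 2 := by
    rw [Real.rpow_sub_one hu.ne', p1]; ring
  have p4 : (1 + x) ^ (-σ - 3 - 1) = (1 + x) ^ (-σ) * (1 / (1 + x)) ^ 4 := by
    rw [show -σ - 3 - 1 = -σ - 1 - 1 - 1 - 1 by ring, Real.rpow_sub_one hu.ne',
      Real.rpow_sub_one hu.ne', p2]; ring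
  have p5 : (1 + x) ^ (-σ - 4 - 1) = (1 + x) ^ (-σ) * (1 / (1 + x)) ^ 5 := by
    rw [show -σ - 4 - 1 = -σ - 3 - 1 - 1 by ring, Real.rpow_sub_one hu.ne', p4]; ring
  have p6 : (1 + x) ^ (-σ - 5 - 1) = (1 + x) ^ (-σ) * (1 / (1 + x)) ^ 6 := by
    rw [show -σ - 5 - 1 = -σ - 4 - 1 - 1 by ring, Real.rpow_sub_one hu.ne', p5]; ring
  unfold Q1
  simp only [Pi.add_apply, Pi.sub_apply]
  rw [p1, p2, p4, p5, p6]
  have s0 := hσ.ne'
  have k1 : ∀ Z : ℝ, 2 / σ * (-σ * Z) = -2 * Z := fun Z => by field_simp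
  have k2 : ∀ Z : ℝ, σ / (1 + σ) * ((-σ - 1) * Z) = -σ * Z := fun Z => by
    have : 1 + σ ≠ 0 := by positivity
    field_simp
    ring
  have k3 : ∀ Z : ℝ, σ / (6 * (3 + σ)) * ((-σ - 3) * Z) = -σ / 6 * Z := fun Z => by
    have : 3 + σ ≠ 0 := by positivity
    field_simp
    ring
  have k4 : ∀ Z : ℝ, 5 * σ / (32 * (4 + σ)) * ((-σ - 4) * Z) = -5 * σ / 32 * Z := fun Z => by
    have : 4 + σ ≠ 0 := by positivity
    field_simp
    ring
  have k5 : ∀ Z : ℝ, 5 * σ / (16 * (5 + σ)) * ((-σ - 5) * Z) = -5 * σ / 16 * Z := fun Z => by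
    have : 5 + σ ≠ 0 := by positivity
    field_simp
    ring
  rw [k1, k2, k3, k4, k5]
  have e1 : (1 + 2 * x) / (x * (1 + x) + τ) + -(τ * (1 + 2 * x)) / (x * (1 + x) + τ) ^ 2 =
      (1 + 2 * x) * (x * (1 + x)) / (x * (1 + x) + τ) ^ 2 := by
    have hw' := hw.ne'
    field_simp
    ring
  linear_combination (1 + x) ^ (-σ) * e1

theorem P2_deriv {τ x : ℝ} (hτ : 0 < τ) (hx : 0 ≤ x) : HasDerivAt (P2 τ) (Q2 τ x) x := by
  have hw : 0 < x * (1 + x) + τ := by positivity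
  have d1 := (w_deriv τ x).log hw.ne'
  have d2 := ((w_deriv τ x).add_const (1 / 6)).log (by positivity : x * (1 + x) + τ + 1 / 6 ≠ 0)
  exact d1.sub d2

theorem pw_lim {σ : ℝ} (hσ : 0 < σ) (c : ℝ) :
    Tendsto (fun x : ℝ => c * (1 + x) ^ (-σ)) atTop (𝓝 0) := by
  have h : Tendsto (fun x : ℝ => (1 + x) ^ (-σ)) atTop (𝓝 0) :=
    (tendsto_rpow_neg_atTop hσ).comp (tendsto_atTop_add_const_left _ _ tendsto_id)
  simpa using h.const_mul c

theorem w_top (τ : ℝ) : Tendsto (fun x : ℝ => x * (1 + x) + τ) atTop atTop := by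
  apply tendsto_atTop_add_const_right
  exact tendsto_id.atTop_mul_atTop₀ (tendsto_atTop_add_const_left _ _ tendsto_id)

theorem P2_lim (τ : ℝ) : Tendsto (P2 τ) atTop (𝓝 0) := by
  have h1 : Tendsto (fun w : ℝ => Real.log (w + 1 / 6) - Real.log w) atTop (𝓝 0) :=
    Real.tendsto_log_comp_add_sub_log (1 / 6)
  have h2 := (h1.comp (w_top τ)).neg
  rw [neg_zero] at h2
  refine h2.congr fun x => ?_
  simp only [Function.comp, P2]
  ring

theorem lg_lim {τ : ℝ} (hτ : 0 < τ) : Tendsto (fun x : ℝ => Real.log (x * (1 + x) + τ) -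
    2 * Real.log (1 + x) + τ / (x * (1 + x) + τ)) atTop (𝓝 0) := by
  have h1 : Tendsto (fun x : ℝ => τ / (x * (1 + x) + τ)) atTop (𝓝 0) :=
    tendsto_const_nhds.div_atTop (w_top τ)
  have h2 : Tendsto (fun x : ℝ => Real.log ((x * (1 + x) + τ) / (1 + x) ^ 2)) atTop (𝓝 0) := by
    have h3 : Tendsto (fun x : ℝ => (x * (1 + x) + τ) / (1 + x) ^ 2) atTop (𝓝 1) := by
      have h4 : Tendsto (fun x : ℝ => 1 - 1 / (1 + x) + τ * (1 / (1 + x)) ^ 2) atTop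
          (𝓝 (1 - 0 + τ * 0 ^ 2)) := by
        have h5 : Tendsto (fun x : ℝ => 1 / (1 + x)) atTop (𝓝 0) :=
          tendsto_const_nhds.div_atTop (tendsto_atTop_add_const_left _ _ tendsto_id)
        exact (tendsto_const_nhds.sub h5).add ((h5.pow 2).const_mul τ)
      have e0 : (1 : ℝ) - 0 + τ * 0 ^ 2 = 1 := by ring
      rw [e0] at h4
      refine h4.congr' ?_
      filter_upwards [eventually_gt_atTop (0 : ℝ)] with x hx
      have : 1 + x ≠ 0 := by positivity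
      field_simp
      ring
    have h4 := (Real.continuousAt_log (one_ne_zero)).tendsto.comp h3
    rw [Real.log_one] at h4
    exact h4
  have h3 := h2.add h1
  rw [add_zero] at h3
  refine h3.congr' ?_
  filter_upwards [eventually_gt_atTop (0 : ℝ)] with x hx
  rw [Real.log_div (by positivity) (by positivity), Real.log_pow]
  push_cast
  ring

theorem P1_lim {σ τ : ℝ} (hσ : 0 < σ) (hτ : 0 < τ) : Tendsto (P1 σ τ) atTop (𝓝 0) := by
  have h1 : Tendsto (fun x : ℝ => (1 + x) ^ (-σ)) atTop (𝓝 0) := by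
    simpa using pw_lim hσ 1
  have h2 := h1.mul (lg_lim hτ)
  have a1 := pw_lim (by linarith : 0 < σ + 1) (σ / (1 + σ))
  have a3 := pw_lim (by linarith : 0 < σ + 3) (σ / (6 * (3 + σ)))
  have a4 := pw_lim (by linarith : 0 < σ + 4) (5 * σ / (32 * (4 + σ)))
  have a5 := pw_lim (by linarith : 0 < σ + 5) (5 * σ / (16 * (5 + σ)))
  have h := ((((h2.sub (pw_lim hσ (2 / σ))).add a1).sub a3).sub a4).sub a5
  have e0 : (0 : ℝ) * 0 - 0 + 0 - 0 - 0 - 0 = 0 := by ring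
  rw [e0] at h
  refine h.congr fun x => ?_
  unfold P1
  rw [show -(σ + 1) = -σ - 1 by ring, show -(σ + 3) = -σ - 3 by ring,
    show -(σ + 4) = -σ - 4 by ring, show -(σ + 5) = -σ - 5 by ring]

/-- **The integral over `x`.** -/
theorem inner {σ τ : ℝ} (hσ : 0 < σ) (hτ0 : 0 < τ) (hτ : τ ≤ 1 / 4) :
    ∫⁻ x in Ioi (0 : ℝ), ENNReal.ofReal (f0 σ τ x) ≤
      ENNReal.ofReal (8 / 9 * (-Real.log τ - 1 + 2 / σ + RR σ) +
        1 / 9 * (Real.log (1 / 6 + τ) - Real.log τ)) := by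
  have hQ1 : ∀ x : ℝ, 0 ≤ x → (1 + x) ^ (-σ) * ((1 + 2 * x) * (x * (1 + x)) /
      (x * (1 + x) + τ) ^ 2) ≤ Q1 σ τ x := by
    intro x hx
    have hu : 0 < 1 + x := by linarith
    have h1 := log_ineq' hx hτ0 hτ
    have h2 : 0 ≤ σ * (1 + x) ^ (-σ - 1) := by positivity
    unfold Q1
    have h3 := mul_nonneg h2 (sub_nonneg.2 h1)
    linarith
  have hQ2 : ∀ x : ℝ, 0 ≤ x → (1 + 2 * x) * (x * (1 + x)) / ((1 + 6 * (x * (1 + x))) *
      (x * (1 + x) + τ) ^ 2) ≤ Q2 τ x := by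
    intro x hx
    have hv : 0 ≤ x * (1 + x) := by positivity
    have hw : 0 < x * (1 + x) + τ := by positivity
    unfold Q2
    have e1 : (1 + 2 * x) / (x * (1 + x) + τ) - (1 + 2 * x) / (x * (1 + x) + τ + 1 / 6) -
        (1 + 2 * x) * (x * (1 + x)) / ((1 + 6 * (x * (1 + x))) * (x * (1 + x) + τ) ^ 2) =
        (1 + 2 * x) * τ / (6 * (1 + 6 * (x * (1 + x))) * (x * (1 + x) + τ) ^ 2 *
          (x * (1 + x) + τ + 1 / 6)) := by
      have h6 : x * (1 + x) + τ + 1 / 6 ≠ 0 := by positivity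
      have h7 : 1 + 6 * (x * (1 + x)) ≠ 0 := by positivity
      field_simp
      ring
    have h2 : 0 ≤ (1 + 2 * x) * τ / (6 * (1 + 6 * (x * (1 + x))) * (x * (1 + x) + τ) ^ 2 *
          (x * (1 + x) + τ + 1 / 6)) := by positivity
    linarith
  have hd : ∀ x ∈ Ici (0 : ℝ), HasDerivAt (fun x => 8 / 9 * P1 σ τ x + 1 / 9 * P2 τ x)
      (8 / 9 * Q1 σ τ x + 1 / 9 * Q2 τ x) x := fun x hx =>
    ((P1_deriv hσ hτ0 hx).const_mul _).add ((P2_deriv hτ0 hx).const_mul _)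
  have hlim : Tendsto (fun x => 8 / 9 * P1 σ τ x + 1 / 9 * P2 τ x) atTop (𝓝 0) := by
    have h := ((P1_lim hσ hτ0).const_mul (8 / 9)).add ((P2_lim τ).const_mul (1 / 9))
    simpa using h
  have hn1 : ∀ x : ℝ, 0 ≤ x → 0 ≤ Q1 σ τ x := fun x hx =>
    le_trans (by positivity) (hQ1 x hx)
  have hn2 : ∀ x : ℝ, 0 ≤ x → 0 ≤ Q2 τ x := fun x hx => le_trans (by positivity) (hQ2 x hx)
  have h := Pool.Agent.H64.CX.LA.fin (f0 σ τ) _ _ 0 hd (fun x hx => by
    have hx' : (0 : ℝ) ≤ x := le_of_lt hx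
    have := hn1 x hx'
    have := hn2 x hx'
    positivity) (fun x hx => ?_) hlim
  · refine h.trans (le_of_eq ?_)
    congr 1
    unfold P1 P2 RR
    simp only [add_zero, zero_mul, zero_add, Real.one_rpow, Real.log_one, mul_zero, sub_zero,
      one_mul, div_self hτ0.ne', mul_one]
    have s1 : (1 + σ) ≠ 0 := by positivity
    have s3 : (3 + σ) ≠ 0 := by positivity
    have s4 : (4 + σ) ≠ 0 := by positivity
    have s5 : (5 + σ) ≠ 0 := by positivity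
    have s0 := hσ.ne'
    rw [add_comm τ (1 / 6)]
    obtain ⟨l1, hl1⟩ : ∃ l, l = Real.log τ := ⟨_, rfl⟩
    obtain ⟨l2, hl2⟩ : ∃ l, l = Real.log (1 / 6 + τ) := ⟨_, rfl⟩
    simp only [← hl1, ← hl2]
    field_simp
    ring
  · have hx' : (0 : ℝ) ≤ x := le_of_lt hx
    have hxp : (0 : ℝ) < x := hx
    have hu : 0 < 1 + x := by linarith
    have hw : 0 < x * (1 + x) + τ := by positivity
    have h1 := fac_le hx'
    obtain ⟨D, hD⟩ : ∃ D, D = ((1 + x) ^ (3 / 2 : ℝ) - x ^ (3 / 2 : ℝ)) ^ 2 := ⟨_, rfl⟩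
    have e1 : f0 σ τ x = (1 + x) ^ (-σ) * ((1 + 2 * x) * (x * (1 + x)) /
        (x * (1 + x) + τ) ^ 2) * ((1 + 2 * x) / D) := by
      unfold f0
      rw [← hD, show (1 - σ : ℝ) = -σ + 1 by ring, Real.rpow_add_one hu.ne', div_pow]
      ring
    rw [← hD] at h1
    rw [e1]
    have h2 : 0 ≤ (1 + x) ^ (-σ) * ((1 + 2 * x) * (x * (1 + x)) / (x * (1 + x) + τ) ^ 2) := by
      positivity
    have h3 : (1 + x) ^ (-σ) ≤ 1 := Real.rpow_le_one_of_one_le_of_nonpos (by linarith) (by linarith)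
    have h4 : 0 ≤ (1 + 2 * x) * (x * (1 + x)) / (x * (1 + x) + τ) ^ 2 := by positivity
    have h5 : 0 ≤ 1 / (1 + 6 * (x * (1 + x))) := by positivity
    calc (1 + x) ^ (-σ) * ((1 + 2 * x) * (x * (1 + x)) /
        (x * (1 + x) + τ) ^ 2) * ((1 + 2 * x) / D)
        ≤ (1 + x) ^ (-σ) * ((1 + 2 * x) * (x * (1 + x)) /
        (x * (1 + x) + τ) ^ 2) * (8 / 9 + 1 / 9 * (1 / (1 + 6 * (x * (1 + x))))) :=
          mul_le_mul_of_nonneg_left h1 h2
      _ = 8 / 9 * ((1 + x) ^ (-σ) * ((1 + 2 * x) * (x * (1 + x)) / (x * (1 + x) + τ) ^ 2)) +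
          1 / 9 * ((1 + x) ^ (-σ) * ((1 + 2 * x) * (x * (1 + x)) / (x * (1 + x) + τ) ^ 2 *
            (1 / (1 + 6 * (x * (1 + x)))))) := by ring
      _ ≤ 8 / 9 * Q1 σ τ x + 1 / 9 * (1 * ((1 + 2 * x) * (x * (1 + x)) / (x * (1 + x) + τ) ^ 2 *
            (1 / (1 + 6 * (x * (1 + x)))))) := by
          have g1 := hQ1 x hx'
          have g2 := mul_le_mul_of_nonneg_right h3 (mul_nonneg h4 h5)
          linarith
      _ = 8 / 9 * Q1 σ τ x + 1 / 9 * ((1 + 2 * x) * (x * (1 + x)) / ((1 + 6 * (x * (1 + x))) *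
          (x * (1 + x) + τ) ^ 2)) := by
          rw [one_mul, div_mul_div_comm, mul_one, mul_comm (1 + 6 * (x * (1 + x)))]
      _ ≤ _ := by
          have g1 := hQ2 x hx'
          linarith

end Pool.Agent.H76.CY
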