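import Pool.Agent.H76.CY.HalfIn2

set_option autoImplicit false

/-! # The density at `α = -1/2`: the double integral is less than `1` for `σ = 41 / 100` -/

namespace Pool.Agent.H76.CY

open Set Filter Topology MeasureTheory
open scoped ENNReal
open Pool.Agent.H64.CX Pool.Agent.H64.CX.LCD

/-- a lower bound of `c₀` in closed form -/
noncomputable def cc (σ : ℝ) : ℝ :=
  8 / 9 * (2 / σ - 1 + RR σ) + 1 / 9 * (-(138629 / 100000) - 1 / 3)

theorem bound_le {σ s : ℝ} (hs0 : 0 < s) (hs1 : s < 1) :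
    8 / 9 * (-Real.log (s * (1 - s)) - 1 + 2 / σ + RR σ) +
      1 / 9 * (Real.log (1 / 6 + s * (1 - s)) - Real.log (s * (1 - s))) ≤
      cc σ + -Real.log s + -Real.log (1 - s) + 4 / 9 * (s * (1 - s)) := by
  have ht : 0 < 1 - s := by linarith
  have h1 : Real.log (4 * (1 / 6 + s * (1 - s))) ≤ 4 * (1 / 6 + s * (1 - s)) - 1 :=
    Real.log_le_sub_one_of_pos (by positivity)
  rw [Real.log_mul (by norm_num) (by positivity)] at h1
  have h2 : Real.log 4 = 2 * Real.log 2 := by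
    rw [show (4 : ℝ) = 2 ^ 2 by norm_num, Real.log_pow]
    norm_num
  have h3 := Real.log_two_gt_d9
  rw [h2] at h1
  rw [Real.log_mul hs0.ne' ht.ne']
  unfold cc
  linarith

/-- the value -/
noncomputable def VV (σ : ℝ) : ℝ :=
  cc σ * (1 / σ - 2 * (1 / (σ + 1)) + 1 / (σ + 2)) +
    (1 / σ ^ 2 - 2 * (1 / (σ + 1) ^ 2) + 1 / (σ + 2) ^ 2) + (1 / (σ + 1) - 1 / (σ + 2)) +
    4 / 9 * (1 / (σ + 1) - 3 * (1 / (σ + 2)) + 3 * (1 / (σ + 3)) - 1 / (σ + 4))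

theorem outer {σ : ℝ} (hσ : 0 < σ) (hc : 0 ≤ cc σ) :
    ∫⁻ s in Ioo (0 : ℝ) 1, ENNReal.ofReal (s ^ 2 * (1 - s) ^ (σ - 1) *
      (cc σ + -Real.log s + -Real.log (1 - s) + 4 / 9 * (s * (1 - s)))) ≤
      ENNReal.ofReal (VV σ) := by
  have h1 : 0 < σ + 1 := by linarith
  have h2 : 0 < σ + 2 := by linarith
  have h3 : 0 < σ + 3 := by linarith
  have h4 : 0 < σ + 4 := by linarith
  set K : ℝ → ℝ := fun t => cc σ * (JP σ t - 2 * JP (σ + 1) t + JP (σ + 2) t) +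
    (LP σ t - 2 * LP (σ + 1) t + LP (σ + 2) t) + (JP (σ + 1) t - JP (σ + 2) t) +
    4 / 9 * (JP (σ + 1) t - 3 * JP (σ + 2) t + 3 * JP (σ + 3) t - JP (σ + 4) t) with hK
  set K' : ℝ → ℝ := fun t => cc σ * (t ^ (σ - 1) - 2 * t ^ (σ + 1 - 1) + t ^ (σ + 2 - 1)) +
    (t ^ (σ - 1) * (-Real.log t) - 2 * (t ^ (σ + 1 - 1) * (-Real.log t)) +
      t ^ (σ + 2 - 1) * (-Real.log t)) + (t ^ (σ + 1 - 1) - t ^ (σ + 2 - 1)) +
    4 / 9 * (t ^ (σ + 1 - 1) - 3 * t ^ (σ + 2 - 1) + 3 * t ^ (σ + 3 - 1) - t ^ (σ + 4 - 1)) with hK'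
  have hKc : Continuous K := by
    have c0 := JP_cont hσ
    have c1 := JP_cont h1
    have c2 := JP_cont h2
    have c3 := JP_cont h3
    have c4 := JP_cont h4
    have d0 := LP_cont hσ
    have d1 := LP_cont h1
    have d2 := LP_cont h2
    simp only [hK]
    fun_prop
  have hKd : ∀ t ∈ Ioo (0 : ℝ) 1, HasDerivAt K (K' t) t := by
    intro t ht
    have c0 := JP_deriv hσ ht.1
    have c1 := JP_deriv h1 ht.1
    have c2 := JP_deriv h2 ht.1
    have c3 := JP_deriv h3 ht.1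
    have c4 := JP_deriv h4 ht.1
    have d0 := LP_deriv hσ ht.1
    have d1 := LP_deriv h1 ht.1
    have d2 := LP_deriv h2 ht.1
    exact (((((c0.sub (c1.const_mul 2)).add c2).const_mul (cc σ)).add
      ((d0.sub (d1.const_mul 2)).add d2)).add (c1.sub c2)).add
      ((((c1.sub (c2.const_mul 3)).add (c3.const_mul 3)).sub c4).const_mul (4 / 9))
  have q3 : ∀ t : ℝ, 0 < t → t ^ (σ + 3 - 1) = t ^ (σ - 1) * t * t * t := by
    intro t ht
    rw [show σ + 3 - 1 = (σ - 1) + 1 + 1 + 1 by ring, Real.rpow_add_one ht.ne',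
      Real.rpow_add_one ht.ne', Real.rpow_add_one ht.ne']
  have q4 : ∀ t : ℝ, 0 < t → t ^ (σ + 4 - 1) = t ^ (σ - 1) * t * t * t * t := by
    intro t ht
    rw [show σ + 4 - 1 = (σ - 1) + 1 + 1 + 1 + 1 by ring, Real.rpow_add_one ht.ne',
      Real.rpow_add_one ht.ne', Real.rpow_add_one ht.ne', Real.rpow_add_one ht.ne']
  have hform : ∀ t : ℝ, 0 < t → K' t = t ^ (σ - 1) * (cc σ * (1 - t) ^ 2 +
      (1 - t) ^ 2 * (-Real.log t) + t * (1 - t) + 4 / 9 * (t * (1 - t) ^ 3)) := by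
    intro t ht
    simp only [hK']
    rw [pw1 ht, pw2 ht, q3 t ht, q4 t ht]
    ring
  have hnn : ∀ t ∈ Ioo (0 : ℝ) 1, 0 ≤ K' t := by
    intro t ht
    rw [hform t ht.1]
    have g1 := Real.log_nonpos ht.1.le ht.2.le
    have g2 : 0 ≤ (1 - t) ^ 2 * (-Real.log t) := mul_nonneg (sq_nonneg _) (by linarith)
    have g3 : 0 ≤ 1 - t := by linarith [ht.2]
    have g4 := ht.1.le
    have g5 : 0 ≤ t ^ (σ - 1) := Real.rpow_nonneg ht.1.le _
    positivity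
  have h := lintR (f := fun s => s ^ 2 * (1 - s) ^ (σ - 1) *
      (cc σ + -Real.log s + -Real.log (1 - s) + 4 / 9 * (s * (1 - s)))) zero_le_one hKc hKd hnn
    ?_ ?_
  · refine h.trans (le_of_eq ?_)
    congr 1
    simp only [hK, JP_one, LP_one, JP_zero hσ, JP_zero h1, JP_zero h2, JP_zero h3, JP_zero h4,
      LP_zero hσ, LP_zero h1, LP_zero h2]
    unfold VV
    ring
  · intro s hs _
    have ht0 : 0 < 1 - s := by linarith [hs.2]
    rw [hform _ ht0]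
    have g2 : s * (-Real.log s) ≤ 1 - s := by
      have g3 := Real.log_le_sub_one_of_pos (inv_pos.2 hs.1)
      rw [Real.log_inv] at g3
      have g4 := mul_le_mul_of_nonneg_left g3 hs.1.le
      have g5 : s * (s⁻¹ - 1) = 1 - s := by
        field_simp [hs.1.ne']
      rw [g5] at g4
      exact g4
    have hu : 0 ≤ (1 - s) ^ (σ - 1) := Real.rpow_nonneg ht0.le _
    have g6 := mul_le_mul_of_nonneg_left g2 hs.1.le
    calc s ^ 2 * (1 - s) ^ (σ - 1) *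
          (cc σ + -Real.log s + -Real.log (1 - s) + 4 / 9 * (s * (1 - s)))
        = (1 - s) ^ (σ - 1) * (cc σ * s ^ 2 + s * (s * (-Real.log s)) +
          s ^ 2 * (-Real.log (1 - s)) + 4 / 9 * (s ^ 3 * (1 - s))) := by ring
      _ ≤ (1 - s) ^ (σ - 1) * (cc σ * s ^ 2 + s * (1 - s) +
          s ^ 2 * (-Real.log (1 - s)) + 4 / 9 * (s ^ 3 * (1 - s))) :=
          mul_le_mul_of_nonneg_left (by linarith) hu
      _ = _ := by ring
  · intro s hs h3
    linarith [hs.1]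

/-- the numbers -/
theorem numbers : 0 ≤ cc (41 / 100) ∧ VV (41 / 100) < Real.pi ^ 2 := by
  have hpi := Real.pi_gt_d6
  have hpi2 : (3.141592 : ℝ) ^ 2 < Real.pi ^ 2 := pow_lt_pow_left₀ hpi (by norm_num) (by norm_num)
  constructor
  · unfold cc RR
    norm_num
  · refine lt_trans ?_ hpi2
    unfold VV cc RR
    norm_num

/-- the density in real form -/
theorem DD_eq (σ x s : ℝ) (hx : 0 < x) (hs0 : 0 < s) (hs1 : s < 1) :
    DD (-(1 / 2)) σ x s = 1 / Real.pi ^ 2 * (s ^ 2 * (1 - s) ^ (σ - 1) * f0 σ (s * (1 - s)) x) := by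
  have hre : (-(1 / 2) : ℂ).re = -(1 / 2) := by norm_num
  have hu : 0 < 1 + x := by linarith
  have hpi := Real.pi_pos
  have hΓ : ‖Complex.Gamma (-(1 / 2))‖ ^ 2 * ‖Complex.Gamma (1 - -(1 / 2))‖ ^ 2 = Real.pi ^ 2 := by
    have h1 := Complex.Gamma_mul_Gamma_one_sub (-(1 / 2))
    have h2 : Complex.sin ((Real.pi : ℂ) * -(1 / 2)) = -1 := by
      rw [show (Real.pi : ℂ) * -(1 / 2) = -((Real.pi : ℂ) / 2) by ring, Complex.sin_neg,
        Complex.sin_pi_div_two]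
    rw [h2] at h1
    have h3 := congrArg (fun z : ℂ => ‖z‖ ^ 2) h1
    simp only [norm_mul, mul_pow, norm_div, norm_neg, norm_one, div_one, Complex.norm_real,
      Real.norm_eq_abs, sq_abs] at h3
    exact h3
  have hne : ((1 : ℂ) - -(1 / 2)) = (((3 / 2 : ℝ) : ℝ) : ℂ) := by push_cast; norm_num
  have hD : ‖((1 + x : ℝ) : ℂ) ^ ((1 : ℂ) - -(1 / 2)) - (x : ℂ) ^ ((1 : ℂ) - -(1 / 2))‖ ^ 2 =
      ((1 + x) ^ (3 / 2 : ℝ) - x ^ (3 / 2 : ℝ)) ^ 2 := by
    rw [hne, ← Complex.ofReal_cpow hu.le, ← Complex.ofReal_cpow hx.le, ← Complex.ofReal_sub,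
      Complex.norm_real, Real.norm_eq_abs, sq_abs]
  unfold DD
  rw [hD, hre]
  have e1 : -(σ + 2 * -(1 / 2 : ℝ)) = 1 - σ := by ring
  have e2 : (1 : ℝ) - 2 * -(1 / 2) = ((2 : ℕ) : ℝ) := by norm_num
  have e3 : σ + 2 * -(1 / 2 : ℝ) = σ - 1 := by ring
  rw [e1, e2, e3, Real.rpow_natCast]
  have hA : 0 < ‖Complex.Gamma (-(1 / 2))‖ ^ 2 := by
    rcases (sq_nonneg ‖Complex.Gamma (-(1 / 2))‖).lt_or_eq with h | h
    · exact h
    · rw [← h, zero_mul] at hΓ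
      have : 0 < Real.pi ^ 2 := by positivity
      linarith
  have hB : 0 < ‖Complex.Gamma (1 - -(1 / 2))‖ ^ 2 := by
    rcases (sq_nonneg ‖Complex.Gamma (1 - -(1 / 2))‖).lt_or_eq with h | h
    · exact h
    · rw [← h, mul_zero] at hΓ
      have : 0 < Real.pi ^ 2 := by positivity
      linarith
  rw [← hΓ]
  have hk : 1 / (s + x) + 1 / (1 + x - s) = (1 + 2 * x) / (x * (1 + x) + s * (1 - s)) := by
    have g1 : s + x ≠ 0 := by positivity
    have g2 : 1 + x - s ≠ 0 := by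
      have : 0 < 1 + x - s := by linarith
      exact this.ne'
    have g3 : x * (1 + x) + s * (1 - s) = (s + x) * (1 + x - s) := by ring
    rw [g3]
    field_simp
    ring
  rw [hk]
  unfold f0
  generalize ‖Complex.Gamma (-(1 / 2))‖ ^ 2 = A at *
  generalize ‖Complex.Gamma (1 - -(1 / 2))‖ ^ 2 = B at *
  generalize ((1 + x) ^ (3 / 2 : ℝ) - x ^ (3 / 2 : ℝ)) ^ 2 = D
  rw [← div_div, one_div, mul_inv]
  ring

/-- **The criterion at `α = -1/2`, `σ = 41/100`.** -/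
theorem crit_half : ∫⁻ x in Ioi (0 : ℝ), ∫⁻ s in Ioo (0 : ℝ) 1,
    ENNReal.ofReal (DD (-(1 / 2)) (41 / 100) x s) < 1 := by
  obtain ⟨hc, hV⟩ := numbers
  have hpi : 0 < Real.pi ^ 2 := by have := Real.pi_pos; positivity
  set σ : ℝ := 41 / 100 with hσ
  have hσ0 : 0 < σ := by rw [hσ]; norm_num
  have h1 : ∫⁻ x in Ioi (0 : ℝ), ∫⁻ s in Ioo (0 : ℝ) 1, ENNReal.ofReal (DD (-(1 / 2)) σ x s) =
      ∫⁻ x in Ioi (0 : ℝ), ∫⁻ s in Ioo (0 : ℝ) 1, ENNReal.ofReal (1 / Real.pi ^ 2 *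
        (s ^ 2 * (1 - s) ^ (σ - 1) * f0 σ (s * (1 - s)) x)) := by
    refine setLIntegral_congr_fun measurableSet_Ioi fun x hx => ?_
    refine setLIntegral_congr_fun measurableSet_Ioo fun s hs => ?_
    rw [DD_eq σ x s hx hs.1 hs.2]
  have hm : Measurable (Function.uncurry fun (x s : ℝ) => ENNReal.ofReal (1 / Real.pi ^ 2 *
        (s ^ 2 * (1 - s) ^ (σ - 1) * f0 σ (s * (1 - s)) x))) := by
    unfold f0 Function.uncurry
    fun_prop
  rw [h1, lintegral_lintegral_swap hm.aemeasurable]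
  have h2 : ∀ s ∈ Ioo (0 : ℝ) 1, ∫⁻ x in Ioi (0 : ℝ), ENNReal.ofReal (1 / Real.pi ^ 2 *
        (s ^ 2 * (1 - s) ^ (σ - 1) * f0 σ (s * (1 - s)) x)) ≤
      ENNReal.ofReal (1 / Real.pi ^ 2) * ENNReal.ofReal (s ^ 2 * (1 - s) ^ (σ - 1) *
      (cc σ + -Real.log s + -Real.log (1 - s) + 4 / 9 * (s * (1 - s)))) := by
    intro s hs
    have ht : 0 < 1 - s := by linarith [hs.2]
    have hA : 0 ≤ s ^ 2 * (1 - s) ^ (σ - 1) := by
      have := Real.rpow_nonneg ht.le (σ - 1)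
      positivity
    have e1 : ∀ x : ℝ, ENNReal.ofReal (1 / Real.pi ^ 2 *
        (s ^ 2 * (1 - s) ^ (σ - 1) * f0 σ (s * (1 - s)) x)) = ENNReal.ofReal (1 / Real.pi ^ 2 *
        (s ^ 2 * (1 - s) ^ (σ - 1))) * ENNReal.ofReal (f0 σ (s * (1 - s)) x) := by
      intro x
      rw [← ENNReal.ofReal_mul (by positivity)]
      congr 1
      ring
    simp_rw [e1]
    have hmf : Measurable fun x : ℝ => ENNReal.ofReal (f0 σ (s * (1 - s)) x) := by
      unfold f0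
      fun_prop
    rw [lintegral_const_mul _ hmf]
    have hin := inner (σ := σ) (τ := s * (1 - s)) hσ0 (mul_pos hs.1 ht) (by
      nlinarith [sq_nonneg (s - 1 / 2)])
    calc ENNReal.ofReal (1 / Real.pi ^ 2 * (s ^ 2 * (1 - s) ^ (σ - 1))) *
          ∫⁻ x in Ioi (0 : ℝ), ENNReal.ofReal (f0 σ (s * (1 - s)) x)
        ≤ ENNReal.ofReal (1 / Real.pi ^ 2 * (s ^ 2 * (1 - s) ^ (σ - 1))) *
          ENNReal.ofReal (cc σ + -Real.log s + -Real.log (1 - s) + 4 / 9 * (s * (1 - s))) :=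
          mul_le_mul_right (hin.trans (ENNReal.ofReal_le_ofReal (bound_le hs.1 hs.2))) _
      _ = _ := by
          rw [ENNReal.ofReal_mul (by positivity : (0 : ℝ) ≤ 1 / Real.pi ^ 2), mul_assoc,
            ← ENNReal.ofReal_mul hA]
  calc ∫⁻ s in Ioo (0 : ℝ) 1, ∫⁻ x in Ioi (0 : ℝ), ENNReal.ofReal (1 / Real.pi ^ 2 *
        (s ^ 2 * (1 - s) ^ (σ - 1) * f0 σ (s * (1 - s)) x))
      ≤ ∫⁻ s in Ioo (0 : ℝ) 1, ENNReal.ofReal (1 / Real.pi ^ 2) *
        ENNReal.ofReal (s ^ 2 * (1 - s) ^ (σ - 1) *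
        (cc σ + -Real.log s + -Real.log (1 - s) + 4 / 9 * (s * (1 - s)))) :=
        setLIntegral_mono' measurableSet_Ioo h2
    _ = ENNReal.ofReal (1 / Real.pi ^ 2) * ∫⁻ s in Ioo (0 : ℝ) 1,
        ENNReal.ofReal (s ^ 2 * (1 - s) ^ (σ - 1) *
        (cc σ + -Real.log s + -Real.log (1 - s) + 4 / 9 * (s * (1 - s)))) :=
        lintegral_const_mul _ (by fun_prop)
    _ ≤ ENNReal.ofReal (1 / Real.pi ^ 2) * ENNReal.ofReal (VV σ) :=
        mul_le_mul_right (outer hσ0 hc) _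
    _ = ENNReal.ofReal (1 / Real.pi ^ 2 * VV σ) := (ENNReal.ofReal_mul (by positivity)).symm
    _ < 1 := by
        rw [← ENNReal.ofReal_one]
        refine (ENNReal.ofReal_lt_ofReal_iff one_pos).2 ?_
        rw [one_div, inv_mul_eq_div, div_lt_one hpi]
        exact hV

end Pool.Agent.H76.CY
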